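import Pool.Agent.W78.GA.Basic

/-!
Project GA, task GA-19 (helper803): primitive vectors in thin sectors and sign change edges
(port of W79/GM/Sect of helper79).
-/

set_option autoImplicit false

namespace Pool.Agent.W803.GA

open Finset Filter
open Pool.Agent.H376R2.MR Pool.Agent.W78.GA

variable {t c : ℤ}

/-- polar form -/
lemma tc_polar (z : Qd t c) :
    tc z = (‖tc z‖ : ℂ) * Complex.exp (ang z * Complex.I) := by
  unfold ang
  exact (Complex.norm_mul_exp_arg_mul_I _).symm

lemma star_mul_polar (v u : Qd t c) :
    (starRingEnd ℂ) (tc v) * tc u =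
      ((‖tc v‖ * ‖tc u‖ : ℝ) : ℂ) * Complex.exp (((ang u - ang v : ℝ) : ℂ) * Complex.I) := by
  conv_lhs => rw [tc_polar v, tc_polar u]
  rw [map_mul, Complex.conj_ofReal, ← Complex.exp_conj, map_mul, Complex.conj_I,
    Complex.conj_ofReal]
  push_cast
  rw [sub_mul, sub_eq_add_neg, Complex.exp_add]
  ring_nf

lemma dt_eq_sin (hD : t ^ 2 < 4 * c) (v u : Qd t c) :
    (dt v u : ℝ) * Real.sqrt (4 * c - t ^ 2) / 2 = ‖tc v‖ * ‖tc u‖ * Real.sin (ang u - ang v) := by
  have h1 := star_mul_polar v u
  rw [← tc_star, ← tc_mul hD, star_mul_eq] at h1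
  have h2 := congrArg Complex.im h1
  rw [tc_im, Complex.im_ofReal_mul, Complex.exp_ofReal_mul_I_im] at h2
  exact h2

lemma ip_eq_cos (hD : t ^ 2 < 4 * c) (v u : Qd t c) :
    (ip v u : ℝ) + t * dt v u / 2 = ‖tc v‖ * ‖tc u‖ * Real.cos (ang u - ang v) := by
  have h1 := star_mul_polar v u
  rw [← tc_star, ← tc_mul hD, star_mul_eq] at h1
  have h2 := congrArg Complex.re h1
  rw [tc_re, Complex.re_ofReal_mul, Complex.exp_ofReal_mul_I_re] at h2
  exact h2

lemma sqrt_disc (hD : t ^ 2 < 4 * c) : (1 : ℝ) ≤ Real.sqrt (4 * c - t ^ 2) := by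
  rw [Real.one_le_sqrt]
  linarith [three_le_disc hD]

/-- two primitive vectors with determinant zero are equal or opposite -/
lemma dt_zero {v u : Qd t c} (hv : prim v) (hu : prim u) (h : dt v u = 0) :
    u = v ∨ u = -v := by
  unfold prim at hv hu
  unfold dt at h
  have hb := Int.gcd_eq_gcd_ab v.re v.im
  rw [hv] at hb
  set a := Int.gcdA v.re v.im
  set b := Int.gcdB v.re v.im
  push_cast at hb
  set k := a * u.re + b * u.im with hc
  have h1 : u.re = k * v.re := by rw [hc]; linear_combination u.re * hb - b * h
  have h2 : u.im = k * v.im := by rw [hc]; linear_combination u.im * hb + a * h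
  have h3 : (Int.gcd u.re u.im : ℕ) = k.natAbs := by
    rw [h1, h2, Int.gcd_mul_left, hv, mul_one]
  rw [hu] at h3
  rcases Int.natAbs_eq k with h4 | h4
  · left
    rw [← h3] at h4
    apply QuadraticAlgebra.ext
    · rw [h1, h4]; simp
    · rw [h2, h4]; simp
  · right
    rw [← h3] at h4
    apply QuadraticAlgebra.ext
    · rw [h1, h4]; simp
    · rw [h2, h4]; simp

lemma norm_le_sqrt (hD : t ^ 2 < 4 * c) {X : ℝ} {z : Qd t c} (hz : z ∈ pball t c X) :
    ‖tc z‖ ≤ Real.sqrt X := by
  rw [norm_tc hD]
  exact Real.sqrt_le_sqrt ((mem_pball hD).1 hz).2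

lemma norm_pos_of_pball (hD : t ^ 2 < 4 * c) {X : ℝ} {z : Qd t c} (hz : z ∈ pball t c X) :
    0 < ‖tc z‖ := by
  rw [norm_pos_iff]
  exact tc_ne_zero hD (prim_ne_zero ((mem_pball hD).1 hz).1)

/-- the directions of the primitive vectors of norm at most `X` are `1/(2X)`-separated -/
lemma separated (hD : t ^ 2 < 4 * c) {X : ℝ} (hX : 1 ≤ X) {z u : Qd t c} (hz : z ∈ pball t c X)
    (hu : u ∈ pball t c X) (hne : u ≠ z) (j : ℤ) :
    1 / (2 * X) ≤ |ang u - ang z + 2 * Real.pi * j| := by
  set τ := ang u - ang z + 2 * Real.pi * j with ht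
  have hsin : Real.sin τ = Real.sin (ang u - ang z) := by
    rw [ht]
    have : ang u - ang z + 2 * Real.pi * j = ang u - ang z + j * (2 * Real.pi) := by ring
    rw [this, Real.sin_add_int_mul_two_pi]
  have hcos : Real.cos τ = Real.cos (ang u - ang z) := by
    rw [ht]
    have : ang u - ang z + 2 * Real.pi * j = ang u - ang z + j * (2 * Real.pi) := by ring
    rw [this, Real.cos_add_int_mul_two_pi]
  have h1 := norm_pos_of_pball hD hz
  have h2 := norm_pos_of_pball hD hu
  have h3 := norm_le_sqrt hD hz
  have h4 := norm_le_sqrt hD hu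
  have h5 : ‖tc z‖ * ‖tc u‖ ≤ X := by
    calc ‖tc z‖ * ‖tc u‖ ≤ Real.sqrt X * Real.sqrt X :=
          mul_le_mul h3 h4 h2.le (Real.sqrt_nonneg _)
      _ = X := Real.mul_self_sqrt (by linarith)
  have hX0 : 0 < X := by linarith
  by_cases hd : dt z u = 0
  · rcases dt_zero ((mem_pball hD).1 hz).1 ((mem_pball hD).1 hu).1 hd with h | h
    · exact absurd h hne
    · by_contra hlt
      push Not at hlt
      have h6 : (ip z u : ℝ) + t * dt z u / 2 < 0 := by
        rw [hd, h]
        have : ip z (-z) = -(nm z : ℤ) := by
          rw [nm_cast hD]; unfold ip; simp; ring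
        rw [this]
        have := nm_posR hD (prim_ne_zero ((mem_pball hD).1 hz).1)
        push_cast
        linarith
      rw [ip_eq_cos hD, ← hcos] at h6
      have h7 : 1 - τ ^ 2 / 2 ≤ Real.cos τ := Real.one_sub_sq_div_two_le_cos
      have h8 : 1 / (2 * X) ≤ 1 := by rw [div_le_one (by positivity)]; linarith
      have h9 : τ ^ 2 ≤ 1 := by
        rw [← sq_abs]
        have := abs_nonneg τ
        nlinarith
      have h10 : 0 < Real.cos τ := by linarith
      have := mul_pos (mul_pos h1 h2) h10
      linarith
  · have h6 : (1 : ℝ) ≤ |(dt z u : ℝ)| := by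
      have : (1 : ℤ) ≤ |dt z u| := Int.one_le_abs hd
      exact_mod_cast this
    have hq := sqrt_disc hD
    have h6' : (1 / 2 : ℝ) ≤ |(dt z u : ℝ) * Real.sqrt (4 * c - t ^ 2) / 2| := by
      rw [abs_div, abs_mul, abs_of_nonneg (by linarith : 0 ≤ Real.sqrt (4 * (c : ℝ) - t ^ 2)), abs_two]
      have := mul_le_mul h6 hq zero_le_one (abs_nonneg _)
      linarith
    rw [dt_eq_sin hD, ← hsin, abs_mul, abs_of_pos (mul_pos h1 h2)] at h6'
    have h7 : |Real.sin τ| ≤ |τ| := Real.abs_sin_le_abs
    rw [div_le_iff₀ (by positivity)]
    have h8 : (1 / 2 : ℝ) ≤ X * |τ| :=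
      calc (1 / 2 : ℝ) ≤ ‖tc z‖ * ‖tc u‖ * |Real.sin τ| := h6'
        _ ≤ X * |Real.sin τ| := mul_le_mul_of_nonneg_right h5 (abs_nonneg _)
        _ ≤ X * |τ| := mul_le_mul_of_nonneg_left h7 hX0.le
    linarith

theorem sect (hD : t ^ 2 < 4 * c) : S_SECT t c := by
  classical
  refine ⟨4, by norm_num, ?_⟩
  intro X δ θ hX hδ hδπ
  have hX0 : 0 < X := by linarith
  set S := (pball t c X).filter (fun z => ∃ j : ℤ, |ang z - θ + 2 * Real.pi * j| ≤ δ) with hS
  have hch : ∀ z ∈ S, ∃ j : ℤ, |ang z - θ + 2 * Real.pi * j| ≤ δ := fun z hz => (mem_filter.1 hz).2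
  choose! J hJ using hch
  set f : Qd t c → ℤ := fun z => ⌊2 * X * (ang z - θ + 2 * Real.pi * J z)⌋ with hf
  have hmap : ∀ z ∈ S, f z ∈ Icc ⌊-(2 * X * δ)⌋ ⌊2 * X * δ⌋ := by
    intro z hz
    have h1 := abs_le.1 (hJ z hz)
    have hX2 : (0 : ℝ) ≤ 2 * X := by positivity
    rw [mem_Icc]
    constructor
    · apply Int.floor_le_floor
      have := mul_le_mul_of_nonneg_left h1.1 hX2
      linarith
    · apply Int.floor_le_floor
      exact mul_le_mul_of_nonneg_left h1.2 hX2
  have hinj : Set.InjOn f S := by
    intro z hz u hu hzu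
    by_contra hne
    have hz' := (mem_filter.1 hz).1
    have hu' := (mem_filter.1 hu).1
    have h1 := separated hD hX hz' hu' (Ne.symm hne) (J u - J z)
    have h2 : |2 * X * (ang u - θ + 2 * Real.pi * J u) - 2 * X * (ang z - θ + 2 * Real.pi * J z)|
        < 1 := Int.abs_sub_lt_one_of_floor_eq_floor hzu.symm
    have h3 : 2 * X * (ang u - θ + 2 * Real.pi * J u) - 2 * X * (ang z - θ + 2 * Real.pi * J z) =
        2 * X * (ang u - ang z + 2 * Real.pi * ((J u - J z : ℤ) : ℝ)) := by
      push_cast
      ring
    rw [h3, abs_mul, abs_of_pos (by positivity : (0 : ℝ) < 2 * X)] at h2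
    rw [div_le_iff₀ (by positivity)] at h1
    linarith
  have hcard := Finset.card_le_card_of_injOn f hmap hinj
  rw [Int.card_Icc] at hcard
  have h1 : ((⌊2 * X * δ⌋ + 1 - ⌊-(2 * X * δ)⌋).toNat : ℝ) ≤ 4 * (X * δ + 1) := by
    have h2 : (((⌊2 * X * δ⌋ + 1 - ⌊-(2 * X * δ)⌋).toNat : ℤ) : ℝ) =
        max (((⌊2 * X * δ⌋ + 1 - ⌊-(2 * X * δ)⌋ : ℤ) : ℝ)) 0 := by
      rw [Int.toNat_eq_max]
      push_cast
      rfl
    have h3 : (((⌊2 * X * δ⌋ + 1 - ⌊-(2 * X * δ)⌋).toNat : ℕ) : ℝ) =
        (((⌊2 * X * δ⌋ + 1 - ⌊-(2 * X * δ)⌋).toNat : ℤ) : ℝ) := by norm_cast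
    rw [h3, h2]
    have h4 := Int.floor_le (2 * X * δ)
    have h5 := Int.lt_floor_add_one (-(2 * X * δ))
    have h6 : 0 ≤ X * δ := by positivity
    apply max_le
    · push_cast
      linarith
    · linarith
  calc ((S.card : ℕ) : ℝ) ≤ ((⌊2 * X * δ⌋ + 1 - ⌊-(2 * X * δ)⌋).toNat : ℝ) := by exact_mod_cast hcard
    _ ≤ 4 * (X * δ + 1) := h1

/-! ### BETW -/

lemma plucker (z y e u : Qd t c) :
    dt z y * dt e u = dt z e * dt y u + dt z u * dt e y := by
  unfold dt; ring

lemma prim_of_dt {z y : Qd t c} (h : dt z y = 1) : prim y := by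
  unfold prim
  unfold dt at h
  rw [← Int.isCoprime_iff_gcd_eq_one]
  exact ⟨-z.im, z.re, by linarith⟩

lemma exists_dt_one {z : Qd t c} (h : prim z) : ∃ u : Qd t c, dt z u = 1 := by
  unfold prim at h
  rw [← Int.isCoprime_iff_gcd_eq_one] at h
  obtain ⟨a, b, hab⟩ := h
  exact ⟨⟨-b, a⟩, by unfold dt; simp only; linarith⟩

theorem betw (hD : t ^ 2 < 4 * c) : S_BETW t c := by
  classical
  intro X
  -- the primitive vectors strictly inside the cone
  set I : Qd t c → Qd t c → Finset (Qd t c) :=
    fun z z' => (pball t c X).filter (fun v => 0 < dt z v ∧ 0 < dt v z') with hI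
  have key : ∀ N : ℕ, ∀ z z' : Qd t c, (I z z').card ≤ N → z ∈ pball t c X → z' ∈ pball t c X →
      0 < dt z z' → lam (nm z) ≠ lam (nm z') →
      ∃ e ∈ sedge t c X, 0 ≤ dt z e.1 ∧ 0 < dt z e.2 ∧ 0 < dt e.1 z' ∧ 0 ≤ dt e.2 z' := by
    intro N
    induction N with
    | zero =>
      intro z z' hN hz hz' hd hl
      have hempty : I z z' = ∅ := Finset.card_eq_zero.1 (Nat.le_zero.1 hN)
      have hno : ∀ v ∈ pball t c X, 0 < dt z v → dt v z' ≤ 0 := by
        intro v hv h1
        by_contra h2
        push Not at h2
        have : v ∈ I z z' := mem_filter.2 ⟨hv, h1, h2⟩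
        rw [hempty] at this
        exact absurd this (Finset.notMem_empty _)
      have hzp := ((mem_pball hD).1 hz).1
      have hzp' := ((mem_pball hD).1 hz').1
      -- the determinant is one
      have hd1 : dt z z' = 1 := by
        by_contra hne
        have hm : 2 ≤ dt z z' := by omega
        set m := dt z z' with hmdef
        obtain ⟨u0, hu0⟩ := exists_dt_one hzp
        -- z' = a z + m u0
        have hzz : ∃ a : ℤ, z' = (a : Qd t c) * z + (m : Qd t c) * u0 := by
          have h1 : dt z (z' - (m : Qd t c) * u0) = 0 := by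
            have : dt z (z' - (m : Qd t c) * u0) = dt z z' - m * dt z u0 := by
              unfold dt; simp; ring
            rw [this, hu0, ← hmdef]; ring
          -- multiple of z
          set q := z' - (m : Qd t c) * u0 with hq
          unfold dt at hu0 h1
          set a := q.re * u0.im - q.im * u0.re with ha
          refine ⟨a, ?_⟩
          have e1 : q.re = a * z.re := by rw [ha]; linear_combination (-q.re) * hu0 + u0.re * h1
          have e2 : q.im = a * z.im := by rw [ha]; linear_combination (-q.im) * hu0 + u0.im * h1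
          have : q = (a : Qd t c) * z := by
            apply QuadraticAlgebra.ext
            · simp [e1]
            · simp [e2]
          rw [← this, hq]; ring
        obtain ⟨a, ha⟩ := hzz
        -- reduce modulo m
        set b := (-a) % m with hb
        have hmpos : 0 < m := by omega
        have hb0 : 0 ≤ b := Int.emod_nonneg _ hmpos.ne'
        have hbm : b < m := Int.emod_lt_of_pos _ hmpos
        obtain ⟨τ, hτ⟩ : ∃ τ : ℤ, -a = b + m * τ := ⟨(-a) / m, (Int.emod_add_mul_ediv _ _).symm⟩
        -- m u = b z + z'
        set u := u0 - (τ : Qd t c) * z with hu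
        have hmu : (m : Qd t c) * u = (b : Qd t c) * z + z' := by
          rw [hu, ha]
          have : (a : Qd t c) = -((b : Qd t c) + (m : Qd t c) * (τ : Qd t c)) := by
            have : a = -(b + m * τ) := by linarith
            rw [this]; push_cast; ring
          rw [this]; ring
        have hdu : dt z u = 1 := by
          have : dt z u = dt z u0 := by rw [hu]; unfold dt; simp; ring
          rw [this, hu0]
        have hup : prim u := prim_of_dt hdu
        have hduz : dt u z' = b := by
          have h1 : m * dt u z' = b * dt z z' := by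
            have : m * dt u z' = dt ((m : Qd t c) * u) z' := by unfold dt; simp; ring
            rw [this, hmu]
            unfold dt; simp; ring
          rw [← hmdef] at h1
          have : m * dt u z' = m * b := by linarith
          exact mul_left_cancel₀ hmpos.ne' this
        have hbpos : 0 < b := by
          rcases hb0.lt_or_eq with h | h
          · exact h
          · exfalso
            rw [← h] at hmu
            simp only [Int.cast_zero, zero_mul, zero_add] at hmu
            unfold prim at hzp'
            have e1 : z'.re = m * u.re := by rw [← hmu]; simp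
            have e2 : z'.im = m * u.im := by rw [← hmu]; simp
            rw [e1, e2, Int.gcd_mul_left] at hzp'
            have : m.natAbs = 1 := Nat.eq_one_of_mul_eq_one_right hzp'
            omega
        -- the norm of u
        have hnu : (nm u : ℝ) ≤ X := by
          have h1 : (m : ℝ) ^ 2 * nm u = b ^ 2 * nm z + b * (2 * ip z z' + t * dt z z') + nm z' := by
            have h2 : m ^ 2 * (nm u : ℤ) = b ^ 2 * nm z + b * (2 * ip z z' + t * dt z z') + nm z' := by
              have e1 : m * u.re = b * z.re + z'.re := by
                have := congrArg QuadraticAlgebra.re hmu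
                simpa using this
              have e2 : m * u.im = b * z.im + z'.im := by
                have := congrArg QuadraticAlgebra.im hmu
                simpa using this
              rw [nm_cast hD, nm_cast hD, nm_cast hD]
              unfold ip dt
              have e3 : m ^ 2 * (u.re ^ 2 + t * u.re * u.im + c * u.im ^ 2) =
                  (m * u.re) ^ 2 + t * (m * u.re) * (m * u.im) + c * (m * u.im) ^ 2 := by ring
              rw [e3, e1, e2]
              ring
            exact_mod_cast h2
          have hzX := ((mem_pball hD).1 hz).2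
          have hzX' := ((mem_pball hD).1 hz').2
          have hip : (2 * ip z z' + t * dt z z' : ℝ) ≤ 2 * X := by
            have h2 := ip_dt hD z z'
            have h3 : (2 * ip z z' + t * dt z z' : ℝ) ^ 2 ≤ 4 * (nm z * nm z') := by
              have : (2 * ip z z' + t * dt z z' : ℤ) ^ 2 ≤ 4 * (nm z * nm z') := by
                rw [h2]
                nlinarith [mul_nonneg (by linarith : 0 ≤ 4 * c - t ^ 2) (sq_nonneg (dt z z'))]
              exact_mod_cast this
            have h4 : (0 : ℝ) ≤ nm z := Nat.cast_nonneg _
            have h5 : (0 : ℝ) ≤ nm z' := Nat.cast_nonneg _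
            have hX0 : 0 ≤ X := h4.trans hzX
            have h6 : (2 * ip z z' + t * dt z z' : ℝ) ^ 2 ≤ (2 * X) ^ 2 := by
              calc _ ≤ 4 * ((nm z : ℝ) * nm z') := h3
                _ ≤ 4 * (X * X) := by
                    have := mul_le_mul hzX hzX' h5 hX0
                    linarith
                _ = (2 * X) ^ 2 := by ring
            exact abs_le_of_sq_le_sq' h6 (by positivity) |>.2
          have hX0 : 0 ≤ X := (Nat.cast_nonneg _).trans hzX
          have hbR : (0 : ℝ) < b := by exact_mod_cast hbpos
          have hbm' : (b : ℝ) + 1 ≤ m := by exact_mod_cast hbm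
          have hmR : (0 : ℝ) < m := by exact_mod_cast hmpos
          have h2 : (m : ℝ) ^ 2 * nm u ≤ m ^ 2 * X := by
            rw [h1]
            calc (b : ℝ) ^ 2 * nm z + b * (2 * ip z z' + t * dt z z') + nm z' ≤
                b ^ 2 * X + b * (2 * X) + X := by
                  have e1 := mul_le_mul_of_nonneg_left hzX (sq_nonneg (b : ℝ))
                  have e2 := mul_le_mul_of_nonneg_left hip (by positivity : (0 : ℝ) ≤ b)
                  linarith
              _ = (b + 1) ^ 2 * X := by ring
              _ ≤ m ^ 2 * X := by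
                  apply mul_le_mul_of_nonneg_right _ hX0
                  exact pow_le_pow_left₀ (by positivity) hbm' 2
          exact le_of_mul_le_mul_left h2 (by positivity)
        have hu_mem : u ∈ pball t c X := (mem_pball hD).2 ⟨hup, hnu⟩
        have := hno u hu_mem (by rw [hdu]; norm_num)
        rw [hduz] at this
        omega
      -- the sum is large
      have hsum : X < (nm (z + z') : ℝ) := by
        by_contra hle
        push Not at hle
        have e1 : dt z (z + z') = 1 := by
          have : dt z (z + z') = dt z z' := by unfold dt; simp; ring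
          rw [this, hd1]
        have e2 : dt (z + z') z' = 1 := by
          have : dt (z + z') z' = dt z z' := by unfold dt; simp; ring
          rw [this, hd1]
        have := hno (z + z') ((mem_pball hD).2 ⟨prim_of_dt e1, hle⟩) (by rw [e1]; norm_num)
        rw [e2] at this
        norm_num at this
      refine ⟨(z, z'), ?_, ?_, ?_, ?_, ?_⟩
      · unfold sedge edge
        rw [mem_filter, mem_filter, mem_product]
        exact ⟨⟨⟨hz, hz'⟩, hd1, hsum⟩, hl⟩
      · simp only [dt]; nlinarith
      · exact hd
      · exact hd
      · simp only [dt]; nlinarith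
    | succ N ih =>
      intro z z' hN hz hz' hd hl
      by_cases hcard : (I z z').card ≤ N
      · exact ih z z' hcard hz hz' hd hl
      · have hne : (I z z').Nonempty := by
          rw [← Finset.card_pos]; omega
        obtain ⟨v, hv⟩ := hne
        obtain ⟨hvX, hv1, hv2⟩ := mem_filter.1 hv
        by_cases hlv : lam (nm z) = lam (nm v)
        · -- recursion on (v, z')
          have hsub : I v z' ⊆ (I z z').erase v := by
            intro u hu
            obtain ⟨h1, h2, h3⟩ := mem_filter.1 hu
            rw [mem_erase]
            constructor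
            · rintro rfl
              simp only [dt] at h2
              nlinarith
            · refine mem_filter.2 ⟨h1, ?_, h3⟩
              have hp := plucker z u v z'
              -- dt z u * dt v z' = dt z v * dt u z' + dt z z' * dt v u
              have h4 : 0 < dt z v * dt u z' + dt z z' * dt v u := by positivity
              rw [← hp] at h4
              exact (mul_pos_iff_of_pos_right hv2).1 h4
          have hc : (I v z').card ≤ N := by
            have h1 := Finset.card_le_card hsub
            rw [Finset.card_erase_of_mem hv] at h1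
            omega
          obtain ⟨e, he, h1, h2, h3, h4⟩ := ih v z' hc hvX hz' hv2 (by rw [← hlv]; exact hl)
          refine ⟨e, he, ?_, ?_, h3, h4⟩
          · -- 0 ≤ dt z e.1
            have hp := plucker z e.1 v z'
            have h5 : 0 ≤ dt z v * dt e.1 z' + dt z z' * dt v e.1 := by positivity
            rw [← hp] at h5
            exact nonneg_of_mul_nonneg_left h5 hv2
          · have hp := plucker z e.2 v z'
            have h5 : 0 < dt z v * dt e.2 z' + dt z z' * dt v e.2 := by positivity
            rw [← hp] at h5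
            exact (mul_pos_iff_of_pos_right hv2).1 h5
        · have hsub : I z v ⊆ (I z z').erase v := by
            intro u hu
            obtain ⟨h1, h2, h3⟩ := mem_filter.1 hu
            rw [mem_erase]
            constructor
            · rintro rfl
              simp only [dt] at h3
              nlinarith
            · refine mem_filter.2 ⟨h1, h2, ?_⟩
              have hp := plucker z v u z'
              -- dt z v * dt u z' = dt z u * dt v z' + dt z z' * dt u v
              have h4 : 0 < dt z u * dt v z' + dt z z' * dt u v := by positivity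
              rw [← hp] at h4
              exact (mul_pos_iff_of_pos_left hv1).1 h4
          have hc : (I z v).card ≤ N := by
            have h1 := Finset.card_le_card hsub
            rw [Finset.card_erase_of_mem hv] at h1
            omega
          obtain ⟨e, he, h1, h2, h3, h4⟩ := ih z v hc hz hvX hv1 hlv
          refine ⟨e, he, h1, h2, ?_, ?_⟩
          · have hp := plucker z v e.1 z'
            have h5 : 0 < dt z e.1 * dt v z' + dt z z' * dt e.1 v := by positivity
            rw [← hp] at h5
            exact (mul_pos_iff_of_pos_left hv1).1 h5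
          · have hp := plucker z v e.2 z'
            have h5 : 0 ≤ dt z e.2 * dt v z' + dt z z' * dt e.2 v := by positivity
            rw [← hp] at h5
            exact nonneg_of_mul_nonneg_right h5 hv1
  intro z z' hz hz' hd hl
  exact key _ z z' le_rfl hz hz' hd hl

end Pool.Agent.W803.GA
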